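import Pool.Agent.Helper3K9.PS.Exp
import Pool.Agent.TH212.EH.A1

set_option autoImplicit false

/-!
The additive energy of the Piatetski-Shapiro sequences `⌊α n ^ c⌋`, `c > 1` not an integer.
-/

namespace Pool.Agent.Helper3K9.PS

open Finset
open Pool.Agent.H469R2.NK (e norm_e e_add conj_e)
open Pool.Agent.TH212.EH (En)

/-- the exponential sum of a finite family of real numbers -/
noncomputable def SF {M : ℕ} (f : Fin M → ℝ) (t : ℝ) : ℂ := ∑ j, e (t * f j)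

lemma SF_neg {M : ℕ} (f : Fin M → ℝ) (t : ℝ) : SF f (-t) = (starRingEnd ℂ) (SF f t) := by
  unfold SF
  rw [map_sum]
  apply sum_congr rfl
  intro j _
  rw [conj_e]
  congr 1
  ring

lemma e_sum {ι : Type} (s : Finset ι) (g : ι → ℝ) : e (∑ i ∈ s, g i) = ∏ i ∈ s, e (g i) := by
  classical
  induction s using Finset.induction_on with
  | empty => simp [Pool.Agent.H469R2.NK.e_zero]
  | insert a s ha ih => rw [sum_insert ha, prod_insert ha, e_add, ih]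

/-- `D(x, y)` -/
noncomputable def DD {M p : ℕ} (f : Fin M → ℝ) (q : (Fin p → Fin M) × (Fin p → Fin M)) : ℝ :=
  ∑ i, f (q.1 i) - ∑ i, f (q.2 i)

lemma sum_e {M p : ℕ} (f : Fin M → ℝ) (t : ℝ) :
    ∑ q : (Fin p → Fin M) × (Fin p → Fin M), e (t * DD f q) = ((‖SF f t‖ ^ (2 * p) : ℝ) : ℂ) := by
  have h1 : ∀ q : (Fin p → Fin M) × (Fin p → Fin M), e (t * DD f q) =
      (∏ i, e (t * f (q.1 i))) * ∏ i, e ((-t) * f (q.2 i)) := by
    intro q
    rw [← e_sum, ← e_sum, ← e_add]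
    congr 1
    unfold DD
    rw [mul_sub, mul_sum, mul_sum]
    simp only [neg_mul, sum_neg_distrib]
    ring
  rw [Fintype.sum_congr _ _ h1, Fintype.sum_prod_type]
  simp only
  have h2 : ∀ x : Fin p → Fin M, ∑ y : Fin p → Fin M, (∏ i, e (t * f (x i))) * ∏ i, e ((-t) * f (y i)) =
      (∏ i, e (t * f (x i))) * SF f (-t) ^ p := by
    intro x
    rw [← mul_sum]
    congr 1
    unfold SF
    rw [Fintype.sum_pow]
  rw [Fintype.sum_congr _ _ h2, ← sum_mul]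
  have h3 : ∑ x : Fin p → Fin M, ∏ i, e (t * f (x i)) = SF f t ^ p := by
    unfold SF
    rw [Fintype.sum_pow]
  rw [h3, SF_neg, ← mul_pow, Complex.mul_conj, Complex.normSq_eq_norm_sq, pow_mul]
  push_cast
  rfl

lemma re_e (x : ℝ) : (e x).re = Real.cos (2 * Real.pi * x) := by
  unfold e
  rw [Complex.exp_ofReal_mul_I_re]

/-- counting with the exponential sums -/
theorem count_le {M p : ℕ} (f : Fin M → ℝ) (J : ℕ) (hJ : 1 ≤ J) (δ : ℝ) (hδ : 0 < δ)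
    (hδ2 : 6 * (p * (J * δ)) ≤ 1) (A : Finset ((Fin p → Fin M) × (Fin p → Fin M)))
    (hA : ∀ q ∈ A, |DD f q| ≤ p) :
    (A.card : ℝ) ≤ 8 / J * ∑ i ∈ range J, ‖SF f (i * δ)‖ ^ (2 * p) := by
  classical
  have hJR : (1 : ℝ) ≤ J := by exact_mod_cast hJ
  have hJ0 : (0 : ℝ) < J := by linarith
  obtain ⟨W, hW⟩ : ∃ W : (Fin p → Fin M) × (Fin p → Fin M) → ℂ,
      W = fun q => ∑ j ∈ range J, e (((j : ℝ) * δ) * DD f q) := ⟨_, rfl⟩
  -- lower bound on `A`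
  have hlow : ∀ q ∈ A, (J : ℝ) ^ 2 / 4 ≤ ‖W q‖ ^ 2 := by
    intro q hq
    have h1 : (J : ℝ) / 2 ≤ (W q).re := by
      rw [hW]
      simp only [Complex.re_sum]
      have h2 : ∀ j ∈ range J, (1 : ℝ) / 2 ≤ (e (((j : ℝ) * δ) * DD f q)).re := by
        intro j hj
        rw [mem_range] at hj
        rw [re_e, ← Real.cos_pi_div_three, ← Real.cos_abs (2 * Real.pi * (((j : ℝ) * δ) * DD f q))]
        have hpi := Real.pi_pos
        have hj' : (j : ℝ) ≤ J := by exact_mod_cast hj.le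
        have hj0 : (0 : ℝ) ≤ j := Nat.cast_nonneg j
        have h3 : |2 * Real.pi * (((j : ℝ) * δ) * DD f q)| ≤ Real.pi / 3 := by
          rw [abs_mul, abs_mul, abs_mul, abs_mul, abs_of_pos hpi, abs_two, abs_of_pos hδ, abs_of_nonneg hj0]
          have h4 : (j : ℝ) * δ * |DD f q| ≤ J * δ * p := by
            have := hA q hq
            gcongr
          nlinarith
        apply Real.cos_le_cos_of_nonneg_of_le_pi (abs_nonneg _) (by linarith) h3
      calc (J : ℝ) / 2 = ∑ _j ∈ range J, (1 : ℝ) / 2 := by rw [sum_const, card_range, nsmul_eq_mul]; ring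
        _ ≤ _ := sum_le_sum h2
    have h2 : (W q).re ≤ ‖W q‖ := Complex.re_le_norm _
    have h3 : (J : ℝ) / 2 ≤ ‖W q‖ := h1.trans h2
    calc (J : ℝ) ^ 2 / 4 = ((J : ℝ) / 2) ^ 2 := by ring
      _ ≤ ‖W q‖ ^ 2 := by gcongr
  -- the complete sum
  have hsum : ((∑ q, ‖W q‖ ^ 2 : ℝ) : ℂ) = ((∑ j ∈ range J, ∑ j' ∈ range J,
      ‖SF f (((j : ℝ) - j') * δ)‖ ^ (2 * p) : ℝ) : ℂ) := by
    have h1 : ∀ q, ((‖W q‖ ^ 2 : ℝ) : ℂ) = ∑ j ∈ range J, ∑ j' ∈ range J, e ((((j : ℝ) - j') * δ) * DD f q) := by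
      intro q
      have h2 : ((‖W q‖ ^ 2 : ℝ) : ℂ) = W q * (starRingEnd ℂ) (W q) := by
        rw [Complex.mul_conj, Complex.normSq_eq_norm_sq]
      rw [h2, hW]
      simp only
      rw [map_sum, sum_mul_sum]
      apply sum_congr rfl
      intro j _
      apply sum_congr rfl
      intro j' _
      rw [conj_e, ← e_add]
      congr 1
      ring
    push_cast
    rw [Fintype.sum_congr (fun q => ((‖W q‖ : ℂ) ^ 2)) (fun q => ∑ j ∈ range J, ∑ j' ∈ range J, e ((((j : ℝ) - j') * δ) * DD f q))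
      (fun q => by rw [← h1 q]; push_cast; rfl)]
    rw [sum_comm]
    apply sum_congr rfl
    intro j _
    rw [sum_comm]
    apply sum_congr rfl
    intro j' _
    rw [sum_e]
    push_cast
    rfl
  have hsum' : ∑ q, ‖W q‖ ^ 2 = ∑ j ∈ range J, ∑ j' ∈ range J,
      ‖SF f (((j : ℝ) - j') * δ)‖ ^ (2 * p) := by exact_mod_cast hsum
  -- the fibres
  obtain ⟨G, hG⟩ : ∃ G : ℕ → ℝ, G = (fun i : ℕ => ‖SF f ((i : ℝ) * δ)‖ ^ (2 * p)) := ⟨_, rfl⟩
  have hG0 : ∀ i, 0 ≤ G i := fun i => by rw [hG]; positivity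
  have hGeq : ∀ j j' : ℕ, ‖SF f (((j : ℝ) - j') * δ)‖ ^ (2 * p) = G ((j : ℤ) - j').natAbs := by
    intro j j'
    rw [hG]
    simp only
    have h1 : (((((j : ℤ) - j').natAbs : ℕ)) : ℝ) = |(j : ℝ) - j'| := by
      rw [Nat.cast_natAbs]
      push_cast
      rfl
    rw [h1]
    rcases le_total 0 ((j : ℝ) - j') with h | h
    · rw [abs_of_nonneg h]
    · rw [abs_of_nonpos h, neg_mul, SF_neg, Complex.norm_conj]
  have hrow : ∀ j ∈ range J, ∑ j' ∈ range J, ‖SF f (((j : ℝ) - j') * δ)‖ ^ (2 * p) ≤ 2 * ∑ i ∈ range J, G i := by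
    intro j hj
    rw [mem_range] at hj
    rw [sum_congr rfl (fun j' _ => hGeq j j')]
    have hmaps : ∀ j' ∈ range J, ((j : ℤ) - j').natAbs ∈ range J := by
      intro j' hj'
      rw [mem_range] at hj' ⊢
      omega
    rw [← sum_fiberwise_of_maps_to hmaps, mul_sum]
    apply sum_le_sum
    intro i _
    have h1 : ∑ j' ∈ (range J).filter (fun j' : ℕ => ((j : ℤ) - j').natAbs = i), G ((j : ℤ) - j').natAbs =
        ((range J).filter (fun j' : ℕ => ((j : ℤ) - j').natAbs = i)).card * G i := by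
      rw [← nsmul_eq_mul, ← sum_const]
      apply sum_congr rfl
      intro j' hj'
      rw [(mem_filter.1 hj').2]
    rw [h1]
    apply mul_le_mul_of_nonneg_right _ (hG0 i)
    have h2 : ((range J).filter (fun j' : ℕ => ((j : ℤ) - j').natAbs = i)) ⊆ {j - i, j + i} := by
      intro j' hj'
      rw [mem_filter] at hj'
      rw [mem_insert, mem_singleton]
      omega
    have h3 := (card_le_card h2).trans card_le_two
    exact_mod_cast h3
  have htot : ∑ q, ‖W q‖ ^ 2 ≤ J * (2 * ∑ i ∈ range J, G i) := by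
    rw [hsum']
    calc _ ≤ ∑ _j ∈ range J, 2 * ∑ i ∈ range J, G i := sum_le_sum hrow
      _ = _ := by rw [sum_const, card_range, nsmul_eq_mul]
  have hA2 : (A.card : ℝ) * ((J : ℝ) ^ 2 / 4) ≤ ∑ q, ‖W q‖ ^ 2 := by
    calc (A.card : ℝ) * ((J : ℝ) ^ 2 / 4) = ∑ _q ∈ A, (J : ℝ) ^ 2 / 4 := by rw [sum_const, nsmul_eq_mul]
      _ ≤ ∑ q ∈ A, ‖W q‖ ^ 2 := sum_le_sum hlow
      _ ≤ ∑ q, ‖W q‖ ^ 2 := sum_le_sum_of_subset_of_nonneg (subset_univ _) fun _ _ _ => by positivity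
  have hfin := hA2.trans htot
  have hGs : ∑ i ∈ range J, ‖SF f ((i : ℝ) * δ)‖ ^ (2 * p) = ∑ i ∈ range J, G i := by rw [hG]
  rw [hGs]
  have h5 : (A.card : ℝ) ≤ J * (2 * ∑ i ∈ range J, G i) / ((J : ℝ) ^ 2 / 4) := by
    rw [le_div_iff₀ (by positivity)]
    exact hfin
  refine h5.trans (le_of_eq ?_)
  field_simp
  ring

/-- the family of residues -/
noncomputable def val (α c : ℝ) (κ c₀ : ℤ) (n : ℕ) : ℤ := c₀ + κ * ⌊α * (n : ℝ) ^ c⌋

/-- the number of the exponents -/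
theorem energy_ps (α c : ℝ) (hα : 0 < α) (hc : 1 < c) (hcn : ∀ m : ℕ, c ≠ m) :
    ∃ (p K : ℕ) (C : ℝ) (M₀ : ℕ), 1 ≤ p ∧ 0 < C ∧ ∀ M : ℕ, M₀ ≤ M → ∀ κ c₀ : ℤ, κ ≠ 0 →
      (En p (fun j : Fin M => val α c κ c₀ (M + 1 + j)) : ℝ) * (M : ℝ) ^ c ≤
        C * (1 + Real.log M) ^ K * (M : ℝ) ^ (2 * p) := by
  classical
  obtain ⟨k, C, δ₁, M0, hk, hC, hδ₁, hS⟩ := SM_bound α c hα hc hcn
  obtain ⟨P0, hP0⟩ := exists_nat_ge (c / δ₁)
  obtain ⟨P, hP⟩ : ∃ P, P = P0 + 2 := ⟨_, rfl⟩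
  have hPδ : c ≤ δ₁ * P := by
    have : c / δ₁ ≤ P := hP0.trans (by rw [hP]; push_cast; linarith)
    rw [div_le_iff₀ hδ₁] at this
    linarith
  have hP2 : 2 ≤ P := by omega
  obtain ⟨k', hk'⟩ : ∃ k', k = k' + 1 := ⟨k - 1, by omega⟩
  obtain ⟨p, hp⟩ : ∃ p, p = 2 ^ k' * P := ⟨_, rfl⟩
  have h2p : 2 * p = 2 ^ k * P := by rw [hp, hk', pow_succ]; ring
  have hp1 : 1 ≤ p := by
    rw [hp]
    exact Nat.one_le_iff_ne_zero.2 (by positivity)
  have hpR : (1 : ℝ) ≤ p := by exact_mod_cast hp1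
  have hp0 : (0 : ℝ) < p := by linarith
  obtain ⟨C2, hC2⟩ : ∃ C2 : ℝ, C2 = 8 * (1 + C ^ P * (2 ^ P * ((12 * (p : ℝ)) ^ P * 2 + 2))) := ⟨_, rfl⟩
  have hC20 : 0 < C2 := by rw [hC2]; positivity
  refine ⟨p, k * P, C2, M0 + 1, hp1, hC20, fun M hM κ c₀ hκ => ?_⟩
  have hM1 : 1 ≤ M := by omega
  have hMR : (1 : ℝ) ≤ M := by exact_mod_cast hM1
  have hM0 : (0 : ℝ) < M := by linarith
  have hlogM : 0 ≤ Real.log M := Real.log_nonneg hMR
  have hMc : (1 : ℝ) ≤ (M : ℝ) ^ c := Real.one_le_rpow hMR (by linarith)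
  obtain ⟨J, hJ⟩ : ∃ J : ℕ, J = ⌈(M : ℝ) ^ c⌉₊ := ⟨_, rfl⟩
  have hJ1 : (M : ℝ) ^ c ≤ J := by rw [hJ]; exact Nat.le_ceil _
  have hJ2 : (J : ℝ) ≤ 2 * (M : ℝ) ^ c := by
    have := Nat.ceil_lt_add_one (by positivity : 0 ≤ (M : ℝ) ^ c)
    rw [← hJ] at this
    linarith
  have hJ0 : (0 : ℝ) < J := by linarith
  have hJn : 1 ≤ J := by exact_mod_cast (by linarith : (1 : ℝ) ≤ J)
  obtain ⟨δ, hδ⟩ : ∃ δ : ℝ, δ = 1 / (6 * (p * J)) := ⟨_, rfl⟩
  have hδ0 : 0 < δ := by rw [hδ]; positivity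
  obtain ⟨f, hf⟩ : ∃ f : Fin M → ℝ, f = (fun j : Fin M => α * ((M + 1 + (j : ℕ) : ℕ) : ℝ) ^ c) := ⟨_, rfl⟩
  have hSF : ∀ t, SF f t = SM α c M t := by
    intro t
    unfold SF SM
    rw [hf, ← Fin.sum_univ_eq_sum_range (fun n => e (t * (α * ((M + 1 + n : ℕ) : ℝ) ^ c))) M]
  -- the set of solutions
  obtain ⟨A, hA⟩ : ∃ A : Finset ((Fin p → Fin M) × (Fin p → Fin M)),
      A = univ.filter (fun q => ∑ j, val α c κ c₀ (M + 1 + (q.1 j : ℕ)) = ∑ j, val α c κ c₀ (M + 1 + (q.2 j : ℕ))) := ⟨_, rfl⟩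
  have hEn : En p (fun j : Fin M => val α c κ c₀ (M + 1 + j)) = A.card := by
    unfold En
    rw [Nat.card_eq_fintype_card, Fintype.card_subtype, hA]
  have hAD : ∀ q ∈ A, |DD f q| ≤ p := by
    intro q hq
    rw [hA, mem_filter] at hq
    have h1 := hq.2
    unfold val at h1
    rw [sum_add_distrib, sum_add_distrib, ← mul_sum, ← mul_sum] at h1
    have h2 := mul_left_cancel₀ hκ (add_left_cancel h1)
    have h3 : ∑ j, (⌊f (q.1 j)⌋ : ℝ) = ∑ j, (⌊f (q.2 j)⌋ : ℝ) := by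
      rw [hf]
      exact_mod_cast h2
    have h4 : DD f q = ∑ j, Int.fract (f (q.1 j)) - ∑ j, Int.fract (f (q.2 j)) := by
      unfold DD
      have e1 : ∀ x : Fin p → Fin M, ∑ i, f (x i) = ∑ i, (⌊f (x i)⌋ : ℝ) + ∑ i, Int.fract (f (x i)) := by
        intro x
        rw [← sum_add_distrib]
        exact sum_congr rfl fun i _ => (Int.floor_add_fract _).symm
      rw [e1, e1, h3]
      ring
    have h5 : ∀ x : Fin p → Fin M, 0 ≤ ∑ j, Int.fract (f (x j)) ∧ ∑ j, Int.fract (f (x j)) ≤ p := by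
      intro x
      refine ⟨sum_nonneg fun _ _ => Int.fract_nonneg _, ?_⟩
      calc ∑ j, Int.fract (f (x j)) ≤ ∑ _j : Fin p, (1 : ℝ) := sum_le_sum fun _ _ => (Int.fract_lt_one _).le
        _ = p := by simp
    obtain ⟨a1, a2⟩ := h5 q.1
    obtain ⟨a3, a4⟩ := h5 q.2
    rw [h4, abs_le]
    constructor <;> linarith
  have hcount := count_le (p := p) f J hJn δ hδ0 (by
    rw [hδ]
    apply le_of_eq
    field_simp) A hAD
  -- the terms
  have hterm : ∀ i ∈ Ioo 0 J, ‖SF f ((i : ℝ) * δ)‖ ^ (2 * p) ≤ (M : ℝ) ^ (2 * p) * (C ^ P * (1 + Real.log M) ^ (k * P) *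
      (2 ^ P * ((12 * (p : ℝ)) ^ P * ((i : ℝ) ^ 2)⁻¹ + ((M : ℝ) ^ c)⁻¹))) := by
    intro i hi
    rw [mem_Ioo] at hi
    have hi0 : (0 : ℝ) < i := by exact_mod_cast hi.1
    have hi1 : (1 : ℝ) ≤ i := by exact_mod_cast hi.1
    have hiJ : (i : ℝ) ≤ J := by exact_mod_cast hi.2.le
    have hθ1 : (i : ℝ) * δ ≤ 1 := by
      rw [hδ, mul_one_div, div_le_one (by positivity)]
      nlinarith
    have h1 := hS M (by omega) (i * δ) (by positivity) hθ1
    have h2 : 1 / ((i : ℝ) * δ * (M : ℝ) ^ c) ≤ 12 * p / i := by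
      have e1 : (i : ℝ) / (12 * p) ≤ i * δ * (M : ℝ) ^ c := by
        rw [hδ, div_le_iff₀ (by positivity)]
        have e2 : (i : ℝ) * (1 / (6 * (p * J))) * (M : ℝ) ^ c * (12 * p) = i * (2 * (M : ℝ) ^ c / J) := by
          field_simp
          ring
        rw [e2]
        apply le_mul_of_one_le_right hi0.le
        rw [le_div_iff₀ hJ0]
        linarith
      calc 1 / ((i : ℝ) * δ * (M : ℝ) ^ c) ≤ 1 / ((i : ℝ) / (12 * p)) := one_div_le_one_div_of_le (by positivity) e1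
        _ = _ := by field_simp
    have h3 : ‖SF f ((i : ℝ) * δ)‖ ^ (2 * p) = (M : ℝ) ^ (2 * p) * ((‖SM α c M (i * δ)‖ / M) ^ (2 ^ k)) ^ P := by
      rw [hSF, ← pow_mul, ← h2p, div_pow]
      field_simp
    rw [h3]
    apply mul_le_mul_of_nonneg_left _ (by positivity)
    calc ((‖SM α c M (i * δ)‖ / M) ^ (2 ^ k)) ^ P ≤
          (C * (1 + Real.log M) ^ k * (12 * p / i + (M : ℝ) ^ (-δ₁))) ^ P := by
            apply pow_le_pow_left₀ (by positivity)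
            refine h1.trans ?_
            gcongr
      _ = C ^ P * (1 + Real.log M) ^ (k * P) * (12 * p / i + (M : ℝ) ^ (-δ₁)) ^ P := by
            rw [mul_pow, mul_pow, ← pow_mul]
      _ ≤ C ^ P * (1 + Real.log M) ^ (k * P) * (2 ^ P * ((12 * (p : ℝ)) ^ P * ((i : ℝ) ^ 2)⁻¹ + ((M : ℝ) ^ c)⁻¹)) := by
            apply mul_le_mul_of_nonneg_left _ (by positivity)
            refine (add_pow_le (by positivity) (by positivity) P).trans ?_
            apply mul_le_mul _ _ (by positivity) (by positivity)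
            · exact pow_le_pow_right₀ (by norm_num) (by omega)
            · apply add_le_add
              · rw [div_pow, div_eq_mul_inv]
                apply mul_le_mul_of_nonneg_left _ (by positivity)
                apply inv_anti₀ (by positivity)
                exact pow_le_pow_right₀ hi1 hP2
              · rw [← Real.rpow_natCast, ← Real.rpow_mul hM0.le, ← Real.rpow_neg hM0.le]
                apply Real.rpow_le_rpow_of_exponent_le hMR
                linarith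
  have hsum : ∑ i ∈ range J, ‖SF f ((i : ℝ) * δ)‖ ^ (2 * p) ≤
      (M : ℝ) ^ (2 * p) * ((1 + C ^ P * (2 ^ P * ((12 * (p : ℝ)) ^ P * 2 + 2))) * (1 + Real.log M) ^ (k * P)) := by
    have e1 : range J = insert 0 (Ioo 0 J) := by
      ext i
      rw [mem_range, mem_insert, mem_Ioo]
      omega
    rw [e1, sum_insert (by simp)]
    have h0 : ‖SF f (((0 : ℕ) : ℝ) * δ)‖ ^ (2 * p) ≤ (M : ℝ) ^ (2 * p) := by
      apply pow_le_pow_left₀ (norm_nonneg _)
      unfold SF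
      refine (norm_sum_le _ _).trans ?_
      simp only [norm_e, sum_const, card_univ, Fintype.card_fin, nsmul_eq_mul, mul_one]
      exact le_rfl
    have h1 : ∑ i ∈ Ioo 0 J, ‖SF f ((i : ℝ) * δ)‖ ^ (2 * p) ≤ (M : ℝ) ^ (2 * p) * (C ^ P * (1 + Real.log M) ^ (k * P) *
      (2 ^ P * ((12 * (p : ℝ)) ^ P * 2 + 2))) := by
      refine (sum_le_sum hterm).trans ?_
      rw [← mul_sum, ← mul_sum, ← mul_sum, sum_add_distrib, ← mul_sum, sum_const, nsmul_eq_mul]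
      have a1 : ∑ i ∈ Ioo 0 J, ((i : ℝ) ^ 2)⁻¹ ≤ 2 := by
        have := sum_Ioo_inv_sq_le (α := ℝ) 0 J
        simpa using this
      have a2 : ((Ioo 0 J).card : ℝ) * ((M : ℝ) ^ c)⁻¹ ≤ 2 := by
        rw [← div_eq_mul_inv, div_le_iff₀ (by positivity)]
        have a3 : ((Ioo 0 J).card : ℝ) ≤ J := by
          rw [Nat.card_Ioo]
          exact_mod_cast (by omega : J - 0 - 1 ≤ J)
        linarith
      gcongr
    have hL1 : 1 ≤ (1 + Real.log M) ^ (k * P) := one_le_pow₀ (by linarith)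
    calc _ ≤ (M : ℝ) ^ (2 * p) * 1 + (M : ℝ) ^ (2 * p) * (C ^ P * (1 + Real.log M) ^ (k * P) *
          (2 ^ P * ((12 * (p : ℝ)) ^ P * 2 + 2))) := by linarith
      _ ≤ (M : ℝ) ^ (2 * p) * (1 + Real.log M) ^ (k * P) + (M : ℝ) ^ (2 * p) * (C ^ P * (1 + Real.log M) ^ (k * P) *
          (2 ^ P * ((12 * (p : ℝ)) ^ P * 2 + 2))) := by gcongr
      _ = _ := by ring
  rw [hEn]
  calc (A.card : ℝ) * (M : ℝ) ^ c ≤ (8 / J * ∑ i ∈ range J, ‖SF f ((i : ℝ) * δ)‖ ^ (2 * p)) * J := by gcongr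
    _ = 8 * ∑ i ∈ range J, ‖SF f ((i : ℝ) * δ)‖ ^ (2 * p) := by rw [mul_right_comm, div_mul_cancel₀ _ hJ0.ne']
    _ ≤ 8 * ((M : ℝ) ^ (2 * p) * ((1 + C ^ P * (2 ^ P * ((12 * (p : ℝ)) ^ P * 2 + 2))) * (1 + Real.log M) ^ (k * P))) := by
        gcongr
    _ = _ := by rw [hC2]; ring

end Pool.Agent.Helper3K9.PS
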