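import Pool.Agent.TH915.PW.Exp

set_option autoImplicit false

/-!
Exponential sums with the phase `θ α n ^ c` over `(M, 2 M]`, uniformly for `0 < θ ≤ 1`; `c > 1` is not an
integer. The case of small `θ` needs the factor `(log H / H) ^ k` which is dropped in
`Pool.Agent.TH915.PW.exp_bound`.
-/

namespace Pool.Agent.Helper3K9.PS

open Finset
open Pool.Agent.H469R2.NK (e norm_e e_add conj_e vdcH Av Av_le Cq Cq_pos iterate harm_le)
open Pool.Agent.TH915.PW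

/-- The exponential sum bound for positive frequencies, with the factor `((∑ 1 / l) / H) ^ k`. -/
theorem exp_bound' {k : ℕ} {A B lo hi : ℝ} {φ : ℕ → ℝ → ℝ} (hlo : 0 < lo) (hhi : 0 ≤ hi) (θ : ℝ)
    (hθ : 0 < θ) (h : Hy k A B lo hi φ) (u : ℝ) (N L H : ℕ) (hN : 1 ≤ N) (hL : L ≤ N)
    (hu : A ≤ u) (huL : u + L ≤ B) (hH : 1 ≤ H) (hHN : H ≤ N)
    (hup : 2 * (θ * (hi * (H : ℝ) ^ k)) ≤ 1) :
    (‖∑ n ∈ range L, e (θ * φ 0 (u + n))‖ / N) ^ (2 ^ k) ≤
      Cq k * (1 / H + 2 / (θ * lo) / N * ((1 + Real.log H) / H) ^ k) := by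
  have hN' : (1 : ℝ) ≤ N := by exact_mod_cast hN
  have hH' : (1 : ℝ) ≤ H := by exact_mod_cast hH
  have hL' : (L : ℝ) ≤ N := by exact_mod_cast hL
  have hHN' : (H : ℝ) ≤ N := by exact_mod_cast hHN
  have hstep : ∀ ls : List ℕ, (‖SD φ θ u L ls‖ / N) ^ 2 ≤
      2 / H + 4 * ((∑ l ∈ Ico 1 H, ‖SD φ θ u L (l :: ls)‖ / N) / H) := by
    intro ls
    have h := SD_sq φ θ u L H ls
    set Sg := ∑ l ∈ Ico 1 H, ‖SD φ θ u L (l :: ls)‖ with hSg
    have hSg0 : 0 ≤ Sg := sum_nonneg fun _ _ => norm_nonneg _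
    have h2 : (H : ℝ) * ‖SD φ θ u L ls‖ ^ 2 ≤ (2 * N) * (N + 2 * Sg) := by
      refine h.trans ?_
      have : (L : ℝ) + H ≤ 2 * N := by linarith
      gcongr
    rw [← sum_div, ← hSg]
    have e1 : 2 / (H : ℝ) + 4 * (Sg / N / H) = ((2 * N) * (N + 2 * Sg)) / (H * N ^ 2) := by
      field_simp
      ring
    rw [e1, div_pow, div_le_div_iff₀ (by positivity) (by positivity)]
    calc ‖SD φ θ u L ls‖ ^ 2 * (H * N ^ 2) = ((H : ℝ) * ‖SD φ θ u L ls‖ ^ 2) * N ^ 2 := by ring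
      _ ≤ _ := by gcongr
  have hit := iterate hH (fun ls => ‖SD φ θ u L ls‖ / N) (fun ls => by positivity) hstep k []
  have hSS : ∑ n ∈ range L, e (θ * φ 0 (u + n)) = SD φ θ u L [] := by
    unfold SD
    simp only [List.sum_nil, Nat.sub_zero]
    rfl
  rw [hSS]
  refine hit.trans ?_
  have hC := Cq_pos k
  gcongr
  have h1 := Av_le (H := H) (T := fun ls => ‖SD φ θ u L ls‖ / N)
    (κ := 2 / (θ * lo) / N) k (by
      intro ls hlen hent
      have hpos : 0 < ls.prod := List.prod_pos fun l hl => (hent l hl).1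
      have hle : ls.prod ≤ H ^ k := by
        have := List.prod_le_pow_card ls H (fun l hl => (hent l hl).2.le)
        rwa [hlen] at this
      have hle' : ((ls.prod : ℕ) : ℝ) ≤ (H : ℝ) ^ k := by exact_mod_cast hle
      have h1 := SD_le hlo θ hθ h u L hu huL ls hpos hlen (by
        refine le_trans ?_ hup
        gcongr)
      have hP : (0 : ℝ) < (ls.prod : ℕ) := by exact_mod_cast hpos
      calc ‖SD φ θ u L ls‖ / N ≤ (2 / (θ * lo * (ls.prod : ℕ))) / N := by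
            gcongr
        _ = _ := by field_simp) k [] (by simp) (by simp)
  calc Av H (fun ls => ‖SD φ θ u L ls‖ / N) k [] ≤
        2 / (θ * lo) / N * ((∑ l ∈ Ico 1 H, (1 : ℝ) / l) / H) ^ k / (([] : List ℕ).prod : ℕ) := h1
    _ = 2 / (θ * lo) / N * ((∑ l ∈ Ico 1 H, (1 : ℝ) / l) / H) ^ k := by simp
    _ ≤ _ := by
      have := harm_le H
      have h0 : 0 ≤ ∑ l ∈ Ico 1 H, (1 : ℝ) / l := sum_nonneg fun _ _ => by positivity
      gcongr

/-- the derivatives of `α t ^ c` -/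
noncomputable def pw (α c : ℝ) (m : ℕ) (t : ℝ) : ℝ :=
  α * (∏ j ∈ range m, (c - j)) * t ^ (c - m)

lemma pw_der (α c : ℝ) (m : ℕ) (t : ℝ) (ht : 0 < t) : HasDerivAt (pw α c m) (pw α c (m + 1) t) t := by
  have h1 : HasDerivAt (fun t : ℝ => t ^ (c - m)) ((c - m) * t ^ (c - m - 1)) t :=
    Real.hasDerivAt_rpow_const (Or.inl ht.ne')
  have h2 := h1.const_mul (α * ∏ j ∈ range m, (c - j))
  have e1 : pw α c (m + 1) t = α * (∏ j ∈ range m, (c - j)) * ((c - m) * t ^ (c - m - 1)) := by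
    unfold pw
    rw [prod_range_succ]
    push_cast
    rw [show c - (m + 1 : ℝ) = c - m - 1 by ring]
    ring
  rw [e1]
  exact h2

lemma pw_zero (α c t : ℝ) : pw α c 0 t = α * t ^ c := by simp [pw]

/-- the exponential sum over `(M, 2 M]` -/
noncomputable def SM (α c : ℝ) (M : ℕ) (θ : ℝ) : ℂ := ∑ n ∈ range M, e (θ * (α * ((M + 1 + n : ℕ) : ℝ) ^ c))

theorem SM_bound (α c : ℝ) (hα : 0 < α) (hc : 1 < c) (hcn : ∀ m : ℕ, c ≠ m) :
    ∃ (k : ℕ) (C δ : ℝ) (M₀ : ℕ), 1 ≤ k ∧ 0 < C ∧ 0 < δ ∧ ∀ M : ℕ, M₀ ≤ M → ∀ θ : ℝ, 0 < θ → θ ≤ 1 →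
      (‖SM α c M θ‖ / M) ^ (2 ^ k) ≤ C * (1 + Real.log M) ^ k * (1 / (θ * (M : ℝ) ^ c) + (M : ℝ) ^ (-δ)) := by
  set k : ℕ := ⌊c⌋₊ with hk
  have hc0 : 0 ≤ c := by linarith
  have hk1 : (k : ℝ) ≤ c := Nat.floor_le hc0
  have hk1' : (k : ℝ) < c := lt_of_le_of_ne hk1 (hcn k).symm
  have hk2 : c < k + 1 := Nat.lt_floor_add_one _
  have hk3 : 1 ≤ k := by
    rw [hk]; exact Nat.le_floor (by exact_mod_cast hc.le)
  have hkR : (1 : ℝ) ≤ k := by exact_mod_cast hk3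
  have hkpos : (0 : ℝ) < k := by linarith
  -- the constants
  obtain ⟨g, hg⟩ : ∃ g : ℝ, g = α * ∏ j ∈ range (k + 1), (c - j) := ⟨_, rfl⟩
  have hg0 : 0 < g := by
    rw [hg]
    apply mul_pos hα
    apply prod_pos
    intro j hj
    rw [mem_range] at hj
    have : (j : ℝ) ≤ k := by exact_mod_cast Nat.lt_succ_iff.1 hj
    linarith
  obtain ⟨g', hg'⟩ : ∃ g' : ℝ, g' = g * 3 ^ (c - (k + 1)) := ⟨_, rfl⟩
  have hg'0 : 0 < g' := by rw [hg']; positivity
  obtain ⟨κ, hκ⟩ : ∃ κ : ℝ, κ = min 1 (1 / (2 * g)) := ⟨_, rfl⟩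
  have hκ0 : 0 < κ := by rw [hκ]; positivity
  have hκ1 : κ ≤ 1 := by rw [hκ]; exact min_le_left _ _
  have hκg : 2 * (g * κ ^ k) ≤ 1 := by
    have h1 : κ ^ k ≤ κ := by
      calc κ ^ k ≤ κ ^ 1 := pow_le_pow_of_le_one hκ0.le hκ1 hk3
        _ = κ := pow_one _
    have h2 : κ ≤ 1 / (2 * g) := by rw [hκ]; exact min_le_right _ _
    calc 2 * (g * κ ^ k) ≤ 2 * (g * (1 / (2 * g))) := by gcongr; exact h1.trans h2
      _ = 1 := by field_simp
  obtain ⟨δ, hδ⟩ : ∃ δ : ℝ, δ = (k + 1 - c) / k := ⟨_, rfl⟩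
  have hδ0 : 0 < δ := by rw [hδ]; apply div_pos _ hkpos; linarith
  have hδ1 : δ ≤ 1 := by
    rw [hδ, div_le_one hkpos]; linarith
  obtain ⟨C1, hC1⟩ : ∃ C1 : ℝ, C1 = 2 / κ + 2 / g' * (2 / κ) ^ k := ⟨_, rfl⟩
  have hC10 : 0 < C1 := by rw [hC1]; positivity
  -- `M₀`
  have hM0 : ∃ M0 : ℕ, 2 ≤ M0 ∧ ∀ M : ℕ, M0 ≤ M → 2 ≤ κ * (M : ℝ) ^ δ := by
    have h1 := (tendsto_rpow_atTop hδ0).comp tendsto_natCast_atTop_atTop
    have h2 := h1.eventually_ge_atTop (2 / κ)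
    obtain ⟨M0, h3⟩ := Filter.eventually_atTop.1 h2
    refine ⟨M0 + 2, by omega, fun M hM => ?_⟩
    have h4 := h3 M (by omega)
    simp only [Function.comp_apply] at h4
    rw [div_le_iff₀ hκ0] at h4
    linarith
  obtain ⟨M0, hM02, hM0⟩ := hM0
  refine ⟨k, Cq k * C1, δ, M0, hk3, mul_pos (Cq_pos k) hC10, hδ0, fun M hM θ hθ hθ1 => ?_⟩
  have hM2 : 2 ≤ M := by omega
  have hMR : (2 : ℝ) ≤ M := by exact_mod_cast hM2
  have hMpos : (0 : ℝ) < M := by linarith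
  have hM1 : (1 : ℝ) ≤ M := by linarith
  have hlogM : 0 ≤ Real.log M := Real.log_nonneg hM1
  -- the parameter `h`
  obtain ⟨T, hT⟩ : ∃ T : ℝ, T = θ * (M : ℝ) ^ c := ⟨_, rfl⟩
  have hT0 : 0 < T := by rw [hT]; positivity
  have hTc : T ≤ (M : ℝ) ^ c := by
    rw [hT]; exact mul_le_of_le_one_left (by positivity) hθ1
  have key : ∃ h : ℝ, (M : ℝ) ^ δ ≤ h ∧ h ≤ M ∧ T * h ^ k ≤ (M : ℝ) ^ (k + 1) ∧
      1 / h ≤ 1 / T + (M : ℝ) ^ (-δ) ∧ (M : ℝ) ^ k / (T * h ^ k) ≤ 1 / T + (M : ℝ) ^ (-δ) := by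
    rcases le_total T M with hTM | hTM
    · refine ⟨M, ?_, le_rfl, ?_, ?_, ?_⟩
      · calc (M : ℝ) ^ δ ≤ (M : ℝ) ^ (1 : ℝ) := Real.rpow_le_rpow_of_exponent_le hM1 hδ1
          _ = M := Real.rpow_one _
      · rw [pow_succ]
        nlinarith [pow_pos hMpos k]
      · have h1 : 1 / (M : ℝ) ≤ 1 / T := one_div_le_one_div_of_le hT0 hTM
        have h2 : 0 ≤ (M : ℝ) ^ (-δ) := by positivity
        linarith
      · have h1 : (M : ℝ) ^ k / (T * (M : ℝ) ^ k) = 1 / T := by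
          field_simp
        rw [h1]
        have h2 : 0 ≤ (M : ℝ) ^ (-δ) := by positivity
        linarith
    · obtain ⟨h, hh⟩ : ∃ h : ℝ, h = ((M : ℝ) ^ (k + 1) / T) ^ ((1 : ℝ) / k) := ⟨_, rfl⟩
      have hbase : 0 < (M : ℝ) ^ (k + 1) / T := by positivity
      have hhk : h ^ k = (M : ℝ) ^ (k + 1) / T := by
        rw [hh, ← Real.rpow_natCast, ← Real.rpow_mul hbase.le]
        rw [one_div_mul_cancel hkpos.ne', Real.rpow_one]
      have hh0 : 0 < h := by rw [hh]; positivity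
      have hlow : (M : ℝ) ^ δ ≤ h := by
        have h1 : (M : ℝ) ^ ((k : ℝ) + 1 - c) ≤ (M : ℝ) ^ (k + 1) / T := by
          rw [le_div_iff₀ hT0, Real.rpow_sub hMpos]
          have e1 : (M : ℝ) ^ ((k : ℝ) + 1) = (M : ℝ) ^ (k + 1) := by
            rw [← Real.rpow_natCast]; push_cast; rfl
          rw [e1]
          calc (M : ℝ) ^ (k + 1) / (M : ℝ) ^ c * T ≤ (M : ℝ) ^ (k + 1) / (M : ℝ) ^ c * (M : ℝ) ^ c := by gcongr
            _ = _ := by field_simp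
        rw [hh]
        calc (M : ℝ) ^ δ = ((M : ℝ) ^ ((k : ℝ) + 1 - c)) ^ ((1 : ℝ) / k) := by
              rw [← Real.rpow_mul hMpos.le, hδ]
              congr 1
              field_simp
          _ ≤ _ := Real.rpow_le_rpow (by positivity) h1 (by positivity)
      have hinv : 1 / h ≤ (M : ℝ) ^ (-δ) := by
        rw [Real.rpow_neg hMpos.le, ← one_div]
        exact one_div_le_one_div_of_le (by positivity) hlow
      refine ⟨h, hlow, ?_, ?_, ?_, ?_⟩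
      · rw [hh]
        calc ((M : ℝ) ^ (k + 1) / T) ^ ((1 : ℝ) / k) ≤ ((M : ℝ) ^ k) ^ ((1 : ℝ) / k) := by
              apply Real.rpow_le_rpow hbase.le _ (by positivity)
              rw [div_le_iff₀ hT0, pow_succ]
              nlinarith [pow_pos hMpos k]
          _ = M := by
              rw [← Real.rpow_natCast, ← Real.rpow_mul hMpos.le, mul_one_div_cancel hkpos.ne', Real.rpow_one]
      · rw [hhk]
        field_simp
        exact le_rfl
      · have : 0 < 1 / T := by positivity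
        linarith
      · have h1 : (M : ℝ) ^ k / (T * h ^ k) = 1 / M := by
          rw [hhk, pow_succ]
          field_simp
        rw [h1]
        have h2 : 1 / (M : ℝ) ≤ (M : ℝ) ^ (-δ) := by
          rw [Real.rpow_neg hMpos.le, ← one_div]
          apply one_div_le_one_div_of_le (by positivity)
          calc (M : ℝ) ^ δ ≤ (M : ℝ) ^ (1 : ℝ) := Real.rpow_le_rpow_of_exponent_le hM1 hδ1
            _ = M := Real.rpow_one _
        have : 0 < 1 / T := by positivity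
        linarith
  obtain ⟨h, hh1, hh2, hh3, hh4, hh5⟩ := key
  have hMδ : 0 < (M : ℝ) ^ δ := by positivity
  have hh0 : 0 < h := lt_of_lt_of_le hMδ hh1
  have hκh : 2 ≤ κ * h := (hM0 M hM).trans (by gcongr)
  obtain ⟨H, hH⟩ : ∃ H : ℕ, H = ⌊κ * h⌋₊ := ⟨_, rfl⟩
  have hHle : (H : ℝ) ≤ κ * h := by rw [hH]; exact Nat.floor_le (by positivity)
  have hHge : κ * h / 2 ≤ H := by
    have := Nat.lt_floor_add_one (κ * h)
    rw [← hH] at this
    linarith
  have hH1 : 1 ≤ H := by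
    rw [hH]; exact Nat.le_floor (by push_cast; linarith)
  have hHpos : (0 : ℝ) < H := by exact_mod_cast hH1
  have hHM : H ≤ M := by
    have : (H : ℝ) ≤ M := hHle.trans (by nlinarith)
    exact_mod_cast this
  -- the hypotheses on the phase
  have hexp : c - ((k : ℝ) + 1) ≤ 0 := by linarith
  have hHy : Hy k (M : ℝ) (3 * M) (g * (3 * (M : ℝ)) ^ (c - (k + 1))) (g * (M : ℝ) ^ (c - (k + 1))) (pw α c) := by
    refine ⟨?_, ?_, ?_, ?_⟩
    · intro m _ t ht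
      exact pw_der α c m t (lt_of_lt_of_le hMpos ht.1)
    · intro t ht
      have ht0 : 0 < t := lt_of_lt_of_le hMpos ht.1
      unfold pw
      rw [← hg]
      push_cast
      apply mul_le_mul_of_nonneg_left _ hg0.le
      exact Real.rpow_le_rpow_of_nonpos ht0 ht.2 hexp
    · intro t ht
      unfold pw
      rw [← hg]
      push_cast
      apply mul_le_mul_of_nonneg_left _ hg0.le
      exact Real.rpow_le_rpow_of_nonpos hMpos ht.1 hexp
    · intro t ht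
      have ht0 : 0 < t := lt_of_lt_of_le hMpos ht.1
      unfold pw
      rw [prod_range_succ, ← mul_assoc, ← hg]
      have h1 : (c - ((k + 1 : ℕ) : ℝ)) ≤ 0 := by push_cast; exact hexp
      have h2 : 0 < t ^ (c - ((k + 1 + 1 : ℕ) : ℝ)) := by positivity
      exact mul_nonpos_of_nonpos_of_nonneg (mul_nonpos_of_nonneg_of_nonpos hg0.le h1) h2.le
  have hT' : θ * (M : ℝ) ^ (c - (k + 1)) = T / (M : ℝ) ^ (k + 1) := by
    rw [Real.rpow_sub hMpos, hT]
    have e1 : (M : ℝ) ^ ((k : ℝ) + 1) = (M : ℝ) ^ (k + 1) := by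
      rw [← Real.rpow_natCast]; push_cast; rfl
    rw [e1]
    ring
  have hb := exp_bound' (k := k) (A := (M : ℝ)) (B := 3 * M) (φ := pw α c)
    (lo := g * (3 * (M : ℝ)) ^ (c - (k + 1))) (hi := g * (M : ℝ) ^ (c - (k + 1)))
    (by positivity) (by positivity) θ hθ hHy ((M : ℝ) + 1) M M H (by omega) le_rfl (by linarith)
    (by linarith) hH1 hHM (by
      calc 2 * (θ * (g * (M : ℝ) ^ (c - (k + 1)) * (H : ℝ) ^ k))
          = 2 * (g * ((θ * (M : ℝ) ^ (c - (k + 1))) * (H : ℝ) ^ k)) := by ring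
        _ = 2 * (g * (T / (M : ℝ) ^ (k + 1) * (H : ℝ) ^ k)) := by rw [hT']
        _ ≤ 2 * (g * (T / (M : ℝ) ^ (k + 1) * (κ * h) ^ k)) := by gcongr
        _ = 2 * (g * κ ^ k) * (T * h ^ k / (M : ℝ) ^ (k + 1)) := by rw [mul_pow]; ring
        _ ≤ 1 * 1 := by
            apply mul_le_mul hκg _ (by positivity) zero_le_one
            rw [div_le_one (by positivity)]
            exact hh3
        _ = 1 := one_mul 1)
  have hSM : SM α c M θ = ∑ n ∈ range M, e (θ * pw α c 0 ((M : ℝ) + 1 + n)) := by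
    unfold SM
    apply sum_congr rfl
    intro n _
    rw [pw_zero]
    push_cast
    rfl
  rw [hSM]
  refine hb.trans ?_
  rw [mul_assoc (Cq k), mul_assoc (Cq k)]
  apply mul_le_mul_of_nonneg_left _ (Cq_pos k).le
  -- the final estimate
  have hlogH : Real.log H ≤ Real.log M := Real.log_le_log hHpos (by exact_mod_cast hHM)
  have hlogH0 : 0 ≤ Real.log H := Real.log_nonneg (by exact_mod_cast hH1)
  obtain ⟨Ω, hΩ⟩ : ∃ Ω : ℝ, Ω = 1 / T + (M : ℝ) ^ (-δ) := ⟨_, rfl⟩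
  rw [← hT, ← hΩ] 
  rw [← hΩ] at hh4 hh5
  have hΩ0 : 0 < Ω := by rw [hΩ]; positivity
  have hL1 : 1 ≤ (1 + Real.log M) ^ k := one_le_pow₀ (by linarith)
  have a1 : 1 / (H : ℝ) ≤ 2 / κ * Ω := by
    calc 1 / (H : ℝ) ≤ 1 / (κ * h / 2) := one_div_le_one_div_of_le (by positivity) hHge
      _ = 2 / κ * (1 / h) := by field_simp
      _ ≤ 2 / κ * Ω := by gcongr
  have a2 : 2 / (θ * (g * (3 * (M : ℝ)) ^ (c - (k + 1)))) / M = 2 / g' * ((M : ℝ) ^ k / T) := by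
    rw [Real.mul_rpow (by norm_num) hMpos.le]
    have : θ * (g * ((3 : ℝ) ^ (c - (k + 1)) * (M : ℝ) ^ (c - (k + 1)))) = g' * (T / (M : ℝ) ^ (k + 1)) := by
      rw [← hT', hg']; ring
    rw [this, pow_succ]
    field_simp
  have a3 : ((1 + Real.log H) / H) ^ k ≤ (1 + Real.log M) ^ k * ((2 / κ) ^ k * (1 / h ^ k)) := by
    calc ((1 + Real.log H) / H) ^ k ≤ ((1 + Real.log M) / (κ * h / 2)) ^ k := by gcongr
      _ = _ := by
        rw [div_pow, div_pow, mul_pow, div_pow]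
        field_simp
  calc 1 / (H : ℝ) + 2 / (θ * (g * (3 * (M : ℝ)) ^ (c - (k + 1)))) / M * ((1 + Real.log H) / H) ^ k
      ≤ 2 / κ * Ω + 2 / g' * ((M : ℝ) ^ k / T) * ((1 + Real.log M) ^ k * ((2 / κ) ^ k * (1 / h ^ k))) := by
        rw [a2]
        gcongr
    _ = 2 / κ * Ω + 2 / g' * (2 / κ) ^ k * ((1 + Real.log M) ^ k * ((M : ℝ) ^ k / (T * h ^ k))) := by
        field_simp
    _ ≤ 2 / κ * ((1 + Real.log M) ^ k * Ω) + 2 / g' * (2 / κ) ^ k * ((1 + Real.log M) ^ k * Ω) := by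
        gcongr
        exact le_mul_of_one_le_left hΩ0.le hL1
    _ = C1 * (1 + Real.log M) ^ k * Ω := by rw [hC1]; ring

end Pool.Agent.Helper3K9.PS
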