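import Pool.Agent.Helper3K9.PS.Energy
import Pool.Agent.TH212.EH.A6

/-!
# Weighted level of distribution for residues from dense sets of Piatetski-Shapiro numbers

The residues are `c₀ + κ ⌊α n ^ c⌋`, where `c > 1` is any real number that is not an integer and `n` runs through
an ARBITRARY set of at least `M / log ^ C N` integers in `(M, 2 M]`, where `M = ⌊N ^ (1 / c)⌋`. New is the essentially
best possible bound for the additive energy of high order of the sequence `⌊α n ^ c⌋`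
(`Pool.Agent.Helper3K9.PS.energy_ps`); the passage from the energy to the level of distribution is
`Pool.Agent.TH212.EH`.

From Mathlib: `ArithmeticFunction.vonMangoldt`: the function `Λ`; `Nat.totient`: Euler's function.
-/

set_option autoImplicit false

namespace Pool.Agent.Results.MP_188a10_nt.PiatetskiShapiro

open Finset

/-- `E(x; d, a) = ψ(x; d, a) - x / φ(d)`, where `ψ(x; d, a)` is the sum of `Λ(n)` over the `n ≤ x` with
`n ≡ a (mod d)`. -/
noncomputable def E (x d : ℕ) (a : ℤ) : ℝ :=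
  ∑ n ∈ (Icc 1 x).filter (fun n : ℕ => (n : ℤ) ≡ a [ZMOD d]), ArithmeticFunction.vonMangoldt n - (x : ℝ) / Nat.totient d

/-- `τ(d)`: the number of the divisors of `d`. In particular `τ(d) ^ 2 ≥ 3 ^ ν(d)`, where `ν(d)` is the number of
the prime factors of `d`. -/
noncomputable def τ (d : ℕ) : ℝ := d.divisors.card

/-- `N / exp (K (log log N) ^ 2)` -/
noncomputable def level (K N : ℕ) : ℝ := N / Real.exp (K * Real.log (Real.log N) ^ 2)

/-- the residue `a(n) = c₀ + κ ⌊α n ^ c⌋` -/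
noncomputable def res (α c : ℝ) (κ c₀ : ℤ) (n : ℕ) : ℤ := c₀ + κ * ⌊α * (n : ℝ) ^ c⌋

/-- The sum of `λ(d) E(x(d); d, a)` over the `d ≤ Q` coprime to `a`. -/
noncomputable def weighted (lam : ℕ → ℝ) (x : ℕ → ℕ) (Q : ℕ) (a : ℤ) : ℝ :=
  ∑ d ∈ (Icc 1 Q).filter (fun d : ℕ => Int.gcd a d = 1), lam d * E (x d) d a

/-- The sum of `w(n) E(x; d, a(n))` over the `n ∈ S` for which `a(n)` is positive and coprime to `d`. -/
noncomputable def total (S : Finset ℕ) (α c : ℝ) (κ c₀ : ℤ) (w : ℕ → ℝ) (x d : ℕ) : ℝ :=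
  ∑ n ∈ S.filter (fun n => 0 < res α c κ c₀ n ∧ Int.gcd (res α c κ c₀ n) d = 1), w n * E x d (res α c κ c₀ n)

lemma gcd_iff (a : ℤ) (ha : 0 < a) (q : ℕ) : Int.gcd a q = 1 ↔ a.toNat.Coprime q := by
  obtain ⟨b, rfl⟩ := Int.eq_ofNat_of_zero_le ha.le
  rw [Int.gcd_natCast_natCast, Int.toNat_natCast, Nat.coprime_iff_gcd_eq_one]

lemma E_eq (x q : ℕ) (a : ℤ) (ha : 0 < a) : E x q a =
    Pool.Agent.W93.LV.Fu (fun n => ArithmeticFunction.vonMangoldt n) x q a.toNat - (x : ℝ) / Nat.totient q := by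
  obtain ⟨b, rfl⟩ := Int.eq_ofNat_of_zero_le ha.le
  unfold E Pool.Agent.W93.LV.Fu
  rw [Int.toNat_natCast]
  congr 1
  apply sum_congr _ (fun _ _ => rfl)
  ext n
  simp only [mem_filter, Int.natCast_modEq_iff]

lemma weighted_eq (lam : ℕ → ℝ) (x : ℕ → ℕ) (Q : ℕ) (a : ℤ) (ha : 0 < a) :
    weighted lam x Q a = Pool.Agent.TH212.EH.WW lam x Q a.toNat := by
  unfold weighted Pool.Agent.TH212.EH.WW
  simp only [gcd_iff a ha, E_eq _ _ a ha]

lemma card_le_sub (s : Finset ℕ) (P : ℕ → Prop) [DecidablePred P] (P' : {n // n ∈ s} → Prop) [DecidablePred P']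
    (h : ∀ i : {n // n ∈ s}, P i.1 → P' i) (t : ℝ) (ht : ((univ.filter P').card : ℝ) ≤ t) : ((s.filter P).card : ℝ) ≤ t := by
  classical
  refine le_trans ?_ ht
  apply Nat.cast_le.2
  have e : (s.filter P) ⊆ ((univ : Finset {n // n ∈ s}).filter P').image (fun i => i.1) := by
    intro n hn
    rw [mem_filter] at hn
    rw [mem_image]
    exact ⟨⟨n, hn.1⟩, mem_filter.2 ⟨mem_univ _, h ⟨n, hn.1⟩ hn.2⟩, rfl⟩
  exact (card_le_card e).trans card_image_le

/-- the energy of a subfamily -/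
lemma En_sub (p : ℕ) {ι κ : Type} [Fintype ι] [Fintype κ] (w : κ → ℤ) (g : ι → κ) (hg : Function.Injective g)
    (v : ι → ℤ) (hv : ∀ i, v i = w (g i)) : Pool.Agent.TH212.EH.En p v ≤ Pool.Agent.TH212.EH.En p w := by
  unfold Pool.Agent.TH212.EH.En
  apply Nat.card_le_card_of_injective (fun q => ⟨(fun i => g (q.1.1 i), fun i => g (q.1.2 i)), by
    have := q.2
    simp only [hv] at this
    exact this⟩)
  intro q q' h
  rw [Subtype.mk.injEq, Prod.mk.injEq] at h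
  apply Subtype.ext
  apply Prod.ext
  · funext i
    exact hg (congrFun h.1 i)
  · funext i
    exact hg (congrFun h.2 i)

/-- the input for `Pool.Agent.TH212.EH` -/
lemma hyp (α c : ℝ) (hα : 0 < α) (hc : 1 < c) (hcn : ∀ m : ℕ, c ≠ m) (κ : ℤ) (hκ : κ ≠ 0) (B C : ℕ) :
    ∃ p B' C' N₀ : ℕ, B ≤ B' ∧ ∀ N : ℕ, N₀ ≤ N → ∀ M : ℕ, M = ⌊(N : ℝ) ^ (1 / c)⌋₊ →
      ∀ S : Finset ℕ, S ⊆ Ioc M (2 * M) → (M : ℝ) ≤ S.card * Real.log N ^ C → ∀ c₀ : ℤ, |c₀| ≤ B * (N : ℤ) →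
      (∀ i : {n // n ∈ S}, |res α c κ c₀ i.1| ≤ B' * (N : ℤ)) ∧
      (Pool.Agent.TH212.EH.En p (fun i : {n // n ∈ S} => res α c κ c₀ i.1) : ℝ) * N ≤
        Real.log N ^ C' * (Fintype.card {n // n ∈ S} : ℝ) ^ (2 * p) := by
  classical
  obtain ⟨p, K, D, M₀, hp, hD, hen⟩ := Pool.Agent.Helper3K9.PS.energy_ps α c hα hc hcn
  have hc0 : 0 < c := by linarith
  obtain ⟨A, hA⟩ := exists_nat_ge (α * 2 ^ c + 1)
  obtain ⟨E1, hE1⟩ := exists_nat_ge (D * 2 ^ K * 2 ^ c)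
  -- large `N`
  have ht1 : Filter.Tendsto (fun N : ℕ => Real.log (N : ℝ)) Filter.atTop Filter.atTop :=
    Real.tendsto_log_atTop.comp tendsto_natCast_atTop_atTop
  have ht2 : Filter.Tendsto (fun N : ℕ => (N : ℝ) ^ (1 / c)) Filter.atTop Filter.atTop :=
    (tendsto_rpow_atTop (by positivity)).comp tendsto_natCast_atTop_atTop
  obtain ⟨n1, h1⟩ := (Filter.eventually_atTop.1 (ht1.eventually_ge_atTop ((E1 : ℝ) + 1)))
  obtain ⟨n2, h2⟩ := (Filter.eventually_atTop.1 (ht2.eventually_ge_atTop ((M₀ : ℝ) + 2)))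
  refine ⟨p, B + κ.natAbs * A, K + C * (2 * p) + 1, n1 + n2 + 1, Nat.le_add_right _ _, fun N hN M hM S hS hSc c₀ hc₀ => ?_⟩
  have hL := h1 N (by omega)
  have hR := h2 N (by omega)
  have hN1 : 1 ≤ N := by omega
  have hNR : (1 : ℝ) ≤ N := by exact_mod_cast hN1
  have hN0 : (0 : ℝ) < N := by linarith
  obtain ⟨L, hLe⟩ : ∃ L, L = Real.log (N : ℝ) := ⟨_, rfl⟩
  rw [← hLe] at hL hSc ⊢
  have hL1 : 1 ≤ L := by have : (0 : ℝ) ≤ E1 := Nat.cast_nonneg _; linarith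
  have hE1L : (E1 : ℝ) ≤ L := by linarith
  obtain ⟨R, hRe⟩ : ∃ R, R = (N : ℝ) ^ (1 / c) := ⟨_, rfl⟩
  rw [← hRe] at hR hM
  have hR0 : 0 < R := by have : (0 : ℝ) ≤ M₀ := Nat.cast_nonneg _; linarith
  have hRc : R ^ c = N := by rw [hRe, ← Real.rpow_mul hN0.le, one_div_mul_cancel hc0.ne', Real.rpow_one]
  have hMR : (M : ℝ) ≤ R := by rw [hM]; exact Nat.floor_le hR0.le
  have hRM : R < M + 1 := by rw [hM]; exact Nat.lt_floor_add_one R
  have hMM : M₀ ≤ M := by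
    have : (M₀ : ℝ) ≤ M := by linarith
    exact_mod_cast this
  have hM1 : (1 : ℝ) ≤ M := by have : (0 : ℝ) ≤ M₀ := Nat.cast_nonneg _; linarith
  have hM0 : (0 : ℝ) < M := by linarith
  have hRM2 : R ≤ 2 * M := by linarith
  have hMc : (M : ℝ) ^ c ≤ N := by rw [← hRc]; exact Real.rpow_le_rpow hM0.le hMR hc0.le
  have hNM : (N : ℝ) ≤ 2 ^ c * (M : ℝ) ^ c := by
    rw [← hRc, ← Real.mul_rpow (by norm_num) hM0.le]
    exact Real.rpow_le_rpow hR0.le hRM2 hc0.le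
  constructor
  · rintro ⟨n, hn⟩
    have hn2 := hS hn
    rw [mem_Ioc] at hn2
    have hnR : (n : ℝ) ≤ 2 * M := by exact_mod_cast hn2.2
    have hnc : (n : ℝ) ^ c ≤ 2 ^ c * N := by
      calc (n : ℝ) ^ c ≤ (2 * M) ^ c := Real.rpow_le_rpow (Nat.cast_nonneg _) hnR hc0.le
        _ = 2 ^ c * (M : ℝ) ^ c := Real.mul_rpow (by norm_num) hM0.le
        _ ≤ _ := by gcongr
    have hfl0 : 0 ≤ ⌊α * (n : ℝ) ^ c⌋ := Int.floor_nonneg.2 (by positivity)
    have hfl : ⌊α * (n : ℝ) ^ c⌋ ≤ A * (N : ℤ) := by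
      have e1 : (⌊α * (n : ℝ) ^ c⌋ : ℝ) ≤ A * N := by
        calc (⌊α * (n : ℝ) ^ c⌋ : ℝ) ≤ α * (n : ℝ) ^ c := Int.floor_le _
          _ ≤ α * (2 ^ c * N) := by gcongr
          _ = α * 2 ^ c * N := by ring
          _ ≤ A * N := by
              apply mul_le_mul_of_nonneg_right _ hN0.le
              linarith
      exact_mod_cast e1
    unfold res
    simp only
    calc |c₀ + κ * ⌊α * (n : ℝ) ^ c⌋| ≤ |c₀| + |κ * ⌊α * (n : ℝ) ^ c⌋| := abs_add_le _ _
      _ = |c₀| + |κ| * ⌊α * (n : ℝ) ^ c⌋ := by rw [abs_mul, abs_of_nonneg hfl0]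
      _ ≤ B * N + |κ| * (A * N) := by
          apply add_le_add hc₀
          exact mul_le_mul_of_nonneg_left hfl (abs_nonneg _)
      _ = _ := by
          push_cast
          ring
  · have hsub : Pool.Agent.TH212.EH.En p (fun i : {n // n ∈ S} => res α c κ c₀ i.1) ≤
        Pool.Agent.TH212.EH.En p (fun j : Fin M => Pool.Agent.Helper3K9.PS.val α c κ c₀ (M + 1 + j)) := by
      have hlt : ∀ i : {n // n ∈ S}, i.1 - (M + 1) < M := by
        intro i
        have := hS i.2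
        rw [mem_Ioc] at this
        omega
      refine En_sub p _ (fun i : {n // n ∈ S} => (⟨i.1 - (M + 1), hlt i⟩ : Fin M)) ?_ _ ?_
      · intro i i' h
        rw [Fin.mk.injEq] at h
        have h3 := hS i.2
        have h4 := hS i'.2
        rw [mem_Ioc] at h3 h4
        apply Subtype.ext
        omega
      · intro i
        have h3 := hS i.2
        rw [mem_Ioc] at h3
        have e2 : M + 1 + (i.1 - (M + 1)) = i.1 := by omega
        simp only [e2]
        rfl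
    have hen1 := hen M hMM κ c₀ hκ
    have hlogM : Real.log M ≤ L := by
      rw [hLe]
      apply Real.log_le_log hM0
      calc (M : ℝ) = (M : ℝ) ^ (1 : ℝ) := (Real.rpow_one _).symm
        _ ≤ (M : ℝ) ^ c := Real.rpow_le_rpow_of_exponent_le hM1 hc.le
        _ ≤ N := hMc
    have hlogM0 : 0 ≤ Real.log M := Real.log_nonneg hM1
    rw [Fintype.card_coe]
    have hsubR : (Pool.Agent.TH212.EH.En p (fun i : {n // n ∈ S} => res α c κ c₀ i.1) : ℝ) ≤
        Pool.Agent.TH212.EH.En p (fun j : Fin M => Pool.Agent.Helper3K9.PS.val α c κ c₀ (M + 1 + j)) := by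
      exact_mod_cast hsub
    calc (Pool.Agent.TH212.EH.En p (fun i : {n // n ∈ S} => res α c κ c₀ i.1) : ℝ) * N ≤
        (Pool.Agent.TH212.EH.En p (fun j : Fin M => Pool.Agent.Helper3K9.PS.val α c κ c₀ (M + 1 + j))) * (2 ^ c * (M : ℝ) ^ c) := by
          gcongr
      _ = 2 ^ c * ((Pool.Agent.TH212.EH.En p (fun j : Fin M => Pool.Agent.Helper3K9.PS.val α c κ c₀ (M + 1 + j))) * (M : ℝ) ^ c) := by ring
      _ ≤ 2 ^ c * (D * (1 + Real.log M) ^ K * (M : ℝ) ^ (2 * p)) := by gcongr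
      _ ≤ 2 ^ c * (D * (2 * L) ^ K * (S.card * L ^ C) ^ (2 * p)) := by
          have e3 : 1 + Real.log M ≤ 2 * L := by linarith
          gcongr
      _ = (D * 2 ^ K * 2 ^ c) * (L ^ (K + C * (2 * p)) * (S.card : ℝ) ^ (2 * p)) := by
          rw [mul_pow, mul_pow, ← pow_mul, pow_add]
          ring
      _ ≤ L * (L ^ (K + C * (2 * p)) * (S.card : ℝ) ^ (2 * p)) := by
          apply mul_le_mul_of_nonneg_right (hE1.trans hE1L) (by positivity)
      _ = _ := by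
          rw [pow_succ L]
          ring

open Classical in
/-- Let `α > 0`, a real number `c > 1` that is not an integer, an integer `κ ≠ 0` and `B`, `C`, `T`, `U` be fixed.
There is a `K` such that for all large `N`, with `M = ⌊N ^ (1 / c)⌋`, the following holds for ALL sets `S` of integers in
`(M, 2 M]` with at least `M / log ^ C N` elements and ALL integers `c₀` with `|c₀| ≤ B N`. Let `a(n) = c₀ + κ ⌊α n ^ c⌋`.

(1) For arbitrary coefficients `λ(d)` with `|λ(d)| ≤ (τ(d) log N) ^ T` (e.g. `|λ(d)| ≤ 3 ^ ν(d)`, if `T = 2`) all but at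
most `#S / log ^ U N` of the `n ∈ S` with `a = a(n) > 0` satisfy: the sum of `λ(d) E(x; d, a)` over the `d ≤ Q` coprime
to `a` is at most `N / log ^ U N` in absolute value, for ALL `Q ≤ N / exp (K (log log N) ^ 2)` and ALL `x ≤ B N`.

(2) The same holds for the sums of `λ(d) E(x(d); d, a)`, if `x(d) ≤ B N` is an arbitrary function of the modulus.

(3) For arbitrary coefficients `|w(n)| ≤ log ^ T N` and arbitrary `x(d) ≤ B N`, the sum over ALL
`d ≤ N / exp (K (log log N) ^ 2)` of `τ(d) ^ T` times the ABSOLUTE VALUE of the sum of `w(n) E(x(d); d, a(n))`, over the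
`n ∈ S` for which `a(n)` is positive and coprime to `d`, is at most `#S N / log ^ U N`. -/
theorem result (α c : ℝ) (hα : 0 < α) (hc : 1 < c) (hcn : ∀ m : ℕ, c ≠ m) (κ : ℤ) (hκ : κ ≠ 0) (B C T U : ℕ) :
    ∃ K N₀ : ℕ, ∀ N : ℕ, N₀ ≤ N → ∀ M : ℕ, M = ⌊(N : ℝ) ^ (1 / c)⌋₊ →
      ∀ S : Finset ℕ, S ⊆ Ioc M (2 * M) → (M : ℝ) ≤ S.card * Real.log N ^ C → ∀ c₀ : ℤ, |c₀| ≤ B * (N : ℤ) →
      (∀ lam : ℕ → ℝ, (∀ d, |lam d| ≤ (τ d * Real.log N) ^ T) →
        ((S.filter (fun n => 0 < res α c κ c₀ n ∧ ∃ Q : ℕ, (Q : ℝ) ≤ level K N ∧ ∃ x : ℕ, x ≤ B * N ∧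
          N / Real.log N ^ U < |weighted lam (fun _ => x) Q (res α c κ c₀ n)|)).card : ℝ) ≤ S.card / Real.log N ^ U ∧
        ∀ x : ℕ → ℕ, (∀ d, x d ≤ B * N) →
        ((S.filter (fun n => 0 < res α c κ c₀ n ∧ ∃ Q : ℕ, (Q : ℝ) ≤ level K N ∧
          N / Real.log N ^ U < |weighted lam x Q (res α c κ c₀ n)|)).card : ℝ) ≤ S.card / Real.log N ^ U) ∧
      (∀ w : ℕ → ℝ, (∀ n, |w n| ≤ Real.log N ^ T) → ∀ x : ℕ → ℕ, (∀ d, x d ≤ B * N) →
        ∑ d ∈ Icc 1 ⌊level K N⌋₊, τ d ^ T * |total S α c κ c₀ w (x d) d| ≤ S.card * N / Real.log N ^ U) := by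
  obtain ⟨p, B', C', k0, hB, hyp⟩ := hyp α c hα hc hcn κ hκ B C
  obtain ⟨K1, n1, h1⟩ := Pool.Agent.TH212.EH.few p B' C' T U
  obtain ⟨K2, n2, h2⟩ := Pool.Agent.TH212.EH.dual p B' C' T U
  refine ⟨max K1 K2, k0 + n1 + n2, fun N hN M hM S hS hSc c₀ hc₀ => ?_⟩
  obtain ⟨hv, hE⟩ := hyp N (by omega) M hM S hS hSc c₀ hc₀
  have hfc : Fintype.card {n // n ∈ S} = S.card := Fintype.card_coe _
  have hBN : B * N ≤ B' * N := Nat.mul_le_mul_right _ hB
  have hlev1 : level (max K1 K2) N ≤ Pool.Agent.TH212.EH.level K1 N :=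
    Pool.Agent.TH212.EH.level_anti K1 _ N (le_max_left _ _)
  have hlev2 : level (max K1 K2) N ≤ Pool.Agent.TH212.EH.level K2 N :=
    Pool.Agent.TH212.EH.level_anti K2 _ N (le_max_right _ _)
  have hlev0 : 0 ≤ level (max K1 K2) N := by unfold level; positivity
  constructor
  · intro lam hlam
    have hlam' : ∀ q, |lam q| ≤ Real.log N ^ T * (q.divisors.card : ℝ) ^ T := by
      intro q
      refine (hlam q).trans (le_of_eq ?_)
      rw [mul_pow, mul_comm]
      rfl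
    obtain ⟨k1, k2⟩ := h1 N (by omega) {n // n ∈ S} (fun i => res α c κ c₀ i.1) hv hE lam hlam'
    rw [hfc] at k1
    constructor
    · refine card_le_sub S _ _ ?_ _ k1
      rintro i ⟨hi1, Q, hQ, x, hx, hbig⟩
      refine ⟨hi1, Q, hQ.trans hlev1, x, hx.trans hBN, ?_⟩
      rw [weighted_eq lam (fun _ => x) Q _ hi1] at hbig
      exact hbig
    · intro x hx
      have k3 := k2 x (fun q => (hx q).trans hBN)
      rw [hfc] at k3
      refine card_le_sub S _ _ ?_ _ k3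
      rintro i ⟨hi1, Q, hQ, hbig⟩
      refine ⟨hi1, Q, hQ.trans hlev1, ?_⟩
      rw [weighted_eq lam x Q _ hi1] at hbig
      exact hbig
  · intro w hw x hx
    have k3 := h2 N (by omega) {n // n ∈ S} (fun i => res α c κ c₀ i.1) hv hE (fun i => w i.1) (fun i => hw i.1)
      ⌊level (max K1 K2) N⌋₊ ((Nat.floor_le hlev0).trans hlev2) x (fun q => (hx q).trans hBN)
    rw [hfc] at k3
    rw [mul_comm (S.card : ℝ)]
    refine le_trans (le_of_eq ?_) k3
    apply sum_congr rfl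
    intro q _
    unfold τ total
    congr 2
    have e : S.filter (fun n => 0 < res α c κ c₀ n ∧ Int.gcd (res α c κ c₀ n) q = 1) =
        ((univ : Finset {n // n ∈ S}).filter (fun i => 0 < res α c κ c₀ i.1 ∧ (res α c κ c₀ i.1).toNat.Coprime q)).image (fun i => i.1) := by
      ext n
      rw [mem_image, mem_filter]
      constructor
      · rintro ⟨h3, h4, h5⟩
        exact ⟨⟨n, h3⟩, mem_filter.2 ⟨mem_univ _, h4, (gcd_iff _ h4 q).1 h5⟩, rfl⟩
      · rintro ⟨i, h3, rfl⟩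
        have h4 := (mem_filter.1 h3).2
        exact ⟨i.2, h4.1, (gcd_iff _ h4.1 q).2 h4.2⟩
    rw [e, sum_image (by
      intro i _ j _ h
      exact Subtype.ext h)]
    apply sum_congr rfl
    intro i hi
    rw [mem_filter] at hi
    rw [E_eq _ _ _ hi.2.1]

end Pool.Agent.Results.MP_188a10_nt.PiatetskiShapiro
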